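import Pool.Agent.Gen.TY.GF.GF_000
import Pool.Agent.Gen.TY.GF.GF_001
import Pool.Agent.Gen.TY.GF.GF_002
import Pool.Agent.Gen.TY.GF.GF_003
import Pool.Agent.Gen.TY.GF.GF_004
import Pool.Agent.Gen.TY.GF.GF_005

/-! MP_8ee768_co, project TH-Y': all glued types of the zero pairs of the classes (generated). -/

set_option autoImplicit false

namespace Pool.Agent.Gen.TY.GF

open Pool.Agent.Helper67.TY

theorem all : FlagSeg 0 24746 :=
  ((GF_000.ok.app (GF_001.ok.app GF_002.ok)).app (GF_003.ok.app (GF_004.ok.app GF_005.ok)))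

end Pool.Agent.Gen.TY.GF
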